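import Mathlib

/-! # Concurrent lines in Wang–Shi splits: the combinatorial core

Positions `(k, i)`, `k : Fin 3`, `i < d`, are the marked points on the boundary of the triangle;
`mm d s` are `d` times the barycentric coordinates. -/

namespace Pool.Agent.Q151.WS

def det3 (x u v : Fin 3 → ℝ) : ℝ :=
  x 0 * (u 1 * v 2 - u 2 * v 1) - x 1 * (u 0 * v 2 - u 2 * v 0) + x 2 * (u 0 * v 1 - u 1 * v 0)

theorem det3_rot (x u v : Fin 3 → ℝ) (k : Fin 3) : det3 x u v =
    x k * (u (k + 1) * v (k + 2) - u (k + 2) * v (k + 1)) -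
    x (k + 1) * (u k * v (k + 2) - u (k + 2) * v k) +
    x (k + 2) * (u k * v (k + 1) - u (k + 1) * v k) := by
  unfold det3
  fin_cases k <;> simp <;> ring

theorem det3_antisymm (x u v : Fin 3 → ℝ) : det3 x u v = - det3 x v u := by
  unfold det3; ring

theorem f3a (k : Fin 3) : k + 1 ≠ k ∧ k + 2 ≠ k ∧ k + 2 ≠ k + 1 ∧ k + 1 ≠ k + 2 ∧ k ≠ k + 1 ∧
    k ≠ k + 2 ∧ k + 2 + 1 = k ∧ k + 1 + 1 = k + 2 ∧ k + 2 + 2 = k + 1 ∧ k + 1 + 2 = k := by
  revert k; decide

theorem f3b (k l : Fin 3) : l = k ∨ l = k + 1 ∨ l = k + 2 := by revert k l; decide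

abbrev Pos (d : ℕ) := Fin 3 × Fin d

/-- `d` times the barycentric coordinates of the point at `i/d` on side `k` -/
def pc (d : ℕ) (k : Fin 3) (i : ℕ) : Fin 3 → ℝ :=
  fun c => if c = k then (d : ℝ) - i else if c = k + 1 then (i : ℝ) else 0

def mm {d : ℕ} (s : Pos d) : Fin 3 → ℝ := pc d s.1 s.2.1

theorem pc0 (d : ℕ) (k : Fin 3) (i : ℕ) : pc d k i k = d - i := by simp [pc]
theorem pc1 (d : ℕ) (k : Fin 3) (i : ℕ) : pc d k i (k + 1) = i := by simp [pc, (f3a k).1]
theorem pc2 (d : ℕ) (k : Fin 3) (i : ℕ) : pc d k i (k + 2) = 0 := by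
  simp [pc, (f3a k).2.1]

theorem pcn0 (d : ℕ) (k : Fin 3) (i : ℕ) : pc d (k + 1) i k = 0 := by
  have := f3a k
  unfold pc
  rw [if_neg this.2.2.2.2.1, if_neg (by rw [this.2.2.2.2.2.2.2.1]; exact this.2.2.2.2.2.1)]
theorem pcn1 (d : ℕ) (k : Fin 3) (i : ℕ) : pc d (k + 1) i (k + 1) = d - i := by simp [pc]
theorem pcn2 (d : ℕ) (k : Fin 3) (i : ℕ) : pc d (k + 1) i (k + 2) = i := by
  have := f3a k
  unfold pc
  rw [if_neg this.2.2.1, if_pos this.2.2.2.2.2.2.2.1.symm]

theorem pcp0 (d : ℕ) (k : Fin 3) (i : ℕ) : pc d (k + 2) i k = i := by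
  have := f3a k
  unfold pc
  rw [if_neg this.2.2.2.2.2.1, if_pos this.2.2.2.2.2.2.1.symm]
theorem pcp1 (d : ℕ) (k : Fin 3) (i : ℕ) : pc d (k + 2) i (k + 1) = 0 := by
  have := f3a k
  unfold pc
  rw [if_neg this.2.2.2.1, if_neg (by rw [this.2.2.2.2.2.2.1]; exact this.1)]
theorem pcp2 (d : ℕ) (k : Fin 3) (i : ℕ) : pc d (k + 2) i (k + 2) = d - i := by simp [pc]

/-- the next position -/
def nx {d : ℕ} (s : Pos d) : Pos d :=
  if h : s.2.1 + 1 < d then (s.1, ⟨s.2.1 + 1, h⟩)
  else (s.1 + 1, ⟨0, by have := s.2.2; omega⟩)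

theorem mm_nx {d : ℕ} (s : Pos d) : mm (nx s) = pc d s.1 (s.2.1 + 1) := by
  unfold nx mm
  have hs := s.2.2
  split_ifs with h
  · rfl
  · have e : s.2.1 + 1 = d := by omega
    rw [e]
    funext c
    rcases f3b s.1 c with rfl | rfl | rfl
    · rw [pcn0, pc0]; simp
    · rw [pcn1, pc1]; simp
    · rw [pcn2, pc2]; simp

theorem nx_inj {d : ℕ} : Function.Injective (nx : Pos d → Pos d) := by
  rintro ⟨k, i⟩ ⟨l, j⟩ h
  unfold nx at h
  have hi := i.2
  have hj := j.2
  split_ifs at h with h1 h2 h2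
  · simp only [Prod.mk.injEq, Fin.mk.injEq] at h
    exact Prod.ext h.1 (Fin.ext (by simpa using h.2))
  · simp only [Prod.mk.injEq, Fin.mk.injEq] at h
    omega
  · simp only [Prod.mk.injEq, Fin.mk.injEq] at h
    omega
  · simp only [Prod.mk.injEq] at h
    refine Prod.ext (add_right_cancel h.1) (Fin.ext ?_)
    simp only at h1 h2 ⊢
    omega

section core

variable {d : ℕ} (x : Fin 3 → ℝ) (hx : ∀ k, 0 < x k) (hs : x 0 + x 1 + x 2 = 1)

def D (s t : Pos d) : ℝ := det3 x (mm s) (mm t)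

include hs in
theorem sum_rot (k : Fin 3) : x k + x (k + 1) + x (k + 2) = 1 := by
  fin_cases k
  · exact hs
  · simp only [Fin.mk_one]; change x 1 + x 2 + x 0 = 1; linarith
  · change x 2 + x 0 + x 1 = 1; linarith

theorem D_antisymm (s t : Pos d) : D x s t = - D x t s := det3_antisymm _ _ _

include hx in
theorem D_nx (s : Pos d) : 0 < D x s (nx s) := by
  unfold D
  rw [mm_nx, det3_rot x _ _ s.1]
  unfold mm
  rw [pc0, pc1, pc2, pc0, pc1, pc2]
  have hd : (0 : ℝ) < d := by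
    have := s.2.2
    exact_mod_cast (by omega : 0 < d)
  have := mul_pos (hx (s.1 + 2)) hd
  push_cast
  nlinarith

/-- no marked point is seen strictly between two consecutive marked points -/
theorem lemK (hx : ∀ k, 0 < x k) (s u : Pos d) (h1 : 0 < D x s u) (h2 : 0 < D x u (nx s)) :
    False := by
  obtain ⟨k, i⟩ := s
  obtain ⟨l, j⟩ := u
  have hi : (i.1 : ℝ) + 1 ≤ d := by exact_mod_cast i.2
  have hj : (j.1 : ℝ) + 1 ≤ d := by exact_mod_cast j.2
  have hi0 : (0 : ℝ) ≤ i.1 := Nat.cast_nonneg _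
  have hj0 : (0 : ℝ) ≤ j.1 := Nat.cast_nonneg _
  unfold D at h1 h2
  rw [mm_nx] at h2
  rw [det3_rot x _ _ k] at h1 h2
  unfold mm at h1 h2
  simp only at h1 h2
  rw [pc0, pc1, pc2] at h1 h2
  have a0 := hx k
  have a1 := hx (k + 1)
  have a2 := hx (k + 2)
  rcases f3b k l with rfl | rfl | rfl
  · rw [pc0, pc1, pc2] at h1 h2
    push_cast at h1 h2
    have e1 : 0 < x (l + 2) * (d * ((j.1 : ℝ) - i.1)) := by nlinarith
    have e2 : 0 < x (l + 2) * (d * ((i.1 : ℝ) + 1 - j.1)) := by nlinarith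
    have hd : (0 : ℝ) < d := by linarith
    have e3 : 0 < (j.1 : ℝ) - i.1 := by
      have := (mul_pos_iff_of_pos_left a2).1 e1
      exact (mul_pos_iff_of_pos_left hd).1 this
    have e4 : 0 < (i.1 : ℝ) + 1 - j.1 := by
      have := (mul_pos_iff_of_pos_left a2).1 e2
      exact (mul_pos_iff_of_pos_left hd).1 this
    have e5 : i.1 < j.1 := by exact_mod_cast (by linarith : (i.1 : ℝ) < j.1)
    have e6 : j.1 < i.1 + 1 := by exact_mod_cast (by linarith : (j.1 : ℝ) < i.1 + 1)
    omega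
  · rw [pcn0, pcn1, pcn2] at h1 h2
    push_cast at h1 h2
    set Y := -x (k + 1) * j.1 + x (k + 2) * (d - j.1) with hY
    have e1 : 0 < x k * i.1 * j.1 + (d - i.1) * Y := by rw [hY]; nlinarith
    have e2 : 0 < -(x k * (i.1 + 1) * j.1) - (d - i.1 - 1) * Y := by rw [hY]; nlinarith
    have e3 : x k * j.1 < Y := by nlinarith
    have e4 : 0 ≤ x k * j.1 := by positivity
    have e5 : 0 ≤ x k * (i.1 + 1) * j.1 := by positivity
    have e6 : 0 ≤ (d - i.1 - 1) * Y := mul_nonneg (by linarith) (by linarith)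
    linarith
  · rw [pcp0, pcp1, pcp2] at h1 h2
    push_cast at h1 h2
    set W := x k * (d - j.1) - x (k + 2) * j.1 with hW
    have e1 : 0 < i.1 * W - x (k + 1) * (d - i.1) * (d - j.1) := by rw [hW]; nlinarith
    have e2 : 0 < -((i.1 + 1) * W) + x (k + 1) * (d - i.1 - 1) * (d - j.1) := by
      rw [hW]; nlinarith
    have e4 : 0 < x (k + 1) * (d - j.1) := mul_pos a1 (by linarith)
    have e3 : 0 < -W - x (k + 1) * (d - j.1) := by nlinarith
    have e5 : 0 < x (k + 1) * (d - i.1) * (d - j.1) :=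
      mul_pos (mul_pos a1 (by linarith)) (by linarith)
    have e6 : (i.1 : ℝ) * W ≤ 0 := mul_nonpos_of_nonneg_of_nonpos hi0 (by linarith)
    linarith

include hs in
theorem D_formula (k : Fin 3) (i j : ℕ) : det3 x (pc d k i) (pc d (k + 1) j) =
    -((d - i - d * x k) * (j - d * x (k + 2)) - d * d * x k * x (k + 2)) := by
  rw [det3_rot x _ _ k, pc0 d k i, pc1 d k i, pc2 d k i, pcn0 d k j, pcn1 d k j, pcn2 d k j]
  have := sum_rot x hs k
  have e : x (k + 1) = 1 - x k - x (k + 2) := by linarith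
  rw [e]; ring

include hx hs in
theorem opp_pos (k : Fin 3) (i j : ℕ) (hi : i < d)
    (h : det3 x (pc d k i) (pc d (k + 1) j) = 0) :
    0 < (d : ℝ) - i - d * x k ∧ 0 < (j : ℝ) - d * x (k + 2) ∧
      ((d : ℝ) - i - d * x k) * (j - d * x (k + 2)) = d * d * x k * x (k + 2) := by
  rw [D_formula x hs] at h
  have hd : (0 : ℝ) < d := by exact_mod_cast (by omega : 0 < d)
  have hi' : (i : ℝ) + 1 ≤ d := by exact_mod_cast hi
  have hj0 : (0 : ℝ) ≤ j := Nat.cast_nonneg _
  have a0 := mul_pos hd (hx k)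
  have a2 := mul_pos hd (hx (k + 2))
  have heq : ((d : ℝ) - i - d * x k) * (j - d * x (k + 2)) = d * d * x k * x (k + 2) := by
    linarith
  have hpos : 0 < ((d : ℝ) - i - d * x k) * (j - d * x (k + 2)) := by
    rw [heq]; nlinarith [mul_pos a0 a2]
  rcases mul_pos_iff.1 hpos with ⟨h1, h2⟩ | ⟨h1, h2⟩
  · exact ⟨h1, h2, heq⟩
  · exfalso
    have : ((d : ℝ) - i - d * x k) * (j - d * x (k + 2)) < d * x k * (d * x (k + 2)) := by
      have b1 : d * x k - ((d : ℝ) - i) < d * x k := by linarith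
      have b2 : d * x (k + 2) - (j : ℝ) ≤ d * x (k + 2) := by linarith
      have b3 : 0 < d * x (k + 2) - (j : ℝ) := by linarith
      have b4 : 0 < d * x k - ((d : ℝ) - i) := by linarith
      calc ((d : ℝ) - i - d * x k) * (j - d * x (k + 2))
          = (d * x k - ((d : ℝ) - i)) * (d * x (k + 2) - j) := by ring
        _ ≤ (d * x k - ((d : ℝ) - i)) * (d * x (k + 2)) :=
            mul_le_mul_of_nonneg_left b2 b4.le
        _ < d * x k * (d * x (k + 2)) := mul_lt_mul_of_pos_right b1 a2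
    rw [heq] at this
    nlinarith

theorem D_of_vec (s t : Pos d) (ν : ℝ)
    (h : ∀ c, mm t c - d * x c = -ν * (mm s c - d * x c)) (w : Pos d) :
    D x t w = -ν * D x s w := by
  unfold D det3
  have h0 := h 0
  have h1 := h 1
  have h2 := h 2
  have e0 : mm t 0 = -ν * (mm s 0 - d * x 0) + d * x 0 := by linarith
  have e1 : mm t 1 = -ν * (mm s 1 - d * x 1) + d * x 1 := by linarith
  have e2 : mm t 2 = -ν * (mm s 2 - d * x 2) + d * x 2 := by linarith
  rw [e0, e1, e2]; ring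

include hx hs in
theorem opp1 (s t : Pos d) (hst : t.1 = s.1 + 1) (h : D x s t = 0) :
    ∃ ν : ℝ, 0 < ν ∧ ∀ w, D x t w = -ν * D x s w := by
  obtain ⟨k, i⟩ := s
  obtain ⟨l, j⟩ := t
  simp only at hst
  subst hst
  obtain ⟨h1, h2, h3⟩ := opp_pos x hx hs k i.1 j.1 i.2 h
  have hd : (0 : ℝ) < d := by
    have := i.2
    exact_mod_cast (by omega : 0 < d)
  refine ⟨d * x k / (d - i.1 - d * x k), div_pos (mul_pos hd (hx k)) h1, ?_⟩
  apply D_of_vec
  have hsum := sum_rot x hs k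
  have hν : d * x k / (d - i.1 - d * x k) * (d - i.1 - d * x k) = d * x k :=
    div_mul_cancel₀ _ (ne_of_gt h1)
  have hν2 : d * x k / (d - i.1 - d * x k) * (d * x (k + 2)) = j.1 - d * x (k + 2) := by
    rw [div_mul_eq_mul_div, div_eq_iff (ne_of_gt h1)]
    linarith
  generalize d * x k / (d - i.1 - d * x k) = ν at hν hν2
  intro c
  unfold mm
  simp only
  rcases f3b k c with rfl | rfl | rfl
  · rw [pcn0, pc0]; linarith
  · rw [pcn1, pc1]
    have e : x (k + 1) = 1 - x k - x (k + 2) := by linarith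
    rw [e]
    linear_combination (-1 : ℝ) * hν + hν2
  · rw [pcn2, pc2]; linarith

include hx in
theorem D_same (s t : Pos d) (hst : t.1 = s.1) (h : D x s t = 0) : s = t := by
  obtain ⟨k, i⟩ := s
  obtain ⟨l, j⟩ := t
  simp only at hst
  subst hst
  unfold D at h
  rw [det3_rot x _ _ l] at h
  unfold mm at h
  simp only at h
  rw [pc0, pc1, pc2, pc0, pc1, pc2] at h
  have hd : (0 : ℝ) < d := by
    have := i.2
    exact_mod_cast (by omega : 0 < d)
  have : x (l + 2) * (d * ((j.1 : ℝ) - i.1)) = 0 := by linear_combination h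
  have h3 : (j.1 : ℝ) - i.1 = 0 := by
    rcases mul_eq_zero.1 this with h4 | h4
    · exact absurd h4 (ne_of_gt (hx _))
    · rcases mul_eq_zero.1 h4 with h5 | h5
      · exact absurd h5 (ne_of_gt hd)
      · exact h5
  have h4 : j.1 = i.1 := by exact_mod_cast (by linarith : (j.1 : ℝ) = i.1)
  exact Prod.ext rfl (Fin.ext h4.symm)

include hx hs in
theorem opp (s t : Pos d) (hst : s ≠ t) (h : D x s t = 0) :
    ∃ ν : ℝ, 0 < ν ∧ ∀ w, D x t w = -ν * D x s w := by
  rcases f3b s.1 t.1 with h1 | h1 | h1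
  · exact absurd (D_same x hx s t h1 h) hst
  · exact opp1 x hx hs s t h1 h
  · have h2 : s.1 = t.1 + 1 := by rw [h1, (f3a s.1).2.2.2.2.2.2.1]
    obtain ⟨ν, h3, h4⟩ := opp1 x hx hs t s h2 (by rw [D_antisymm, h, neg_zero])
    refine ⟨1 / ν, by positivity, fun w => ?_⟩
    rw [h4 w]
    field_simp

include hx hs in
theorem opp_unique (s t t' : Pos d) (h1 : s ≠ t) (h2 : s ≠ t') (h : D x s t = 0)
    (h' : D x s t' = 0) : t = t' := by
  by_contra hne
  obtain ⟨ν, hν, e⟩ := opp x hx hs s t h1 h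
  obtain ⟨ν', hν', e'⟩ := opp x hx hs s t' h2 h'
  have h3 : D x t t' = 0 := by rw [e, h', mul_zero]
  obtain ⟨μ, hμ, e2⟩ := opp x hx hs t t' hne h3
  have h4 := e2 (nx s)
  rw [e, e'] at h4
  have h5 := D_nx x hx s
  have h6 : (ν' + μ * ν) * D x s (nx s) = 0 := by linear_combination (-1 : ℝ) * h4
  have h7 : 0 < (ν' + μ * ν) * D x s (nx s) := by positivity
  linarith

/-- endpoints of lines through the point -/
def isEnd (s : Pos d) : Prop := ∃ t, s ≠ t ∧ D x s t = 0

include hx hs in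
theorem tight_of_ends (s t : Pos d) (hst : s ≠ t) (h : D x s t = 0) (h1 : isEnd x (nx s))
    (h2 : isEnd x (nx t)) : D x (nx s) (nx t) = 0 := by
  obtain ⟨ν, hν, e⟩ := opp x hx hs s t hst h
  obtain ⟨t', ht', h3⟩ := h1
  obtain ⟨s', hs', h4⟩ := h2
  obtain ⟨μ, hμ, e1⟩ := opp x hx hs (nx s) t' ht' h3
  obtain ⟨lam, hl, e2⟩ := opp x hx hs (nx t) s' hs' h4
  have p1 := D_nx x hx s
  have p2 := D_nx x hx t
  have q1 : D x t (nx t) = -ν * D x s (nx t) := e (nx t)
  have q2 : D x t (nx s) = -ν * D x s (nx s) := e (nx s)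
  rcases lt_trichotomy (D x (nx s) (nx t)) 0 with hc | hc | hc
  · exfalso
    apply lemK x hx t t'
    · rw [D_antisymm, e1, D_antisymm x (nx s) t, q2]
      have : 0 < μ * (ν * D x s (nx s)) := by positivity
      linarith
    · rw [e1]
      have : 0 < μ * (-(D x (nx s) (nx t))) := mul_pos hμ (by linarith)
      linarith
  · exact hc
  · exfalso
    apply lemK x hx s s'
    · rw [D_antisymm, e2, D_antisymm x (nx t) s]
      have h5 : D x s (nx t) < 0 := by
        by_contra h6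
        push Not at h6
        have : ν * D x s (nx t) ≥ 0 := mul_nonneg hν.le h6
        linarith
      have : 0 < lam * (-(D x s (nx t))) := mul_pos hl (by linarith)
      linarith
    · rw [e2, D_antisymm x (nx t) (nx s)]
      have : 0 < lam * D x (nx s) (nx t) := mul_pos hl hc
      linarith

include hx hs in
theorem tight_unique (s t s' t' : Pos d) (hst : t.1 = s.1 + 1) (hst' : t'.1 = s'.1 + 1)
    (hk : s.1 = s'.1) (h : D x s t = 0) (h1 : D x (nx s) (nx t) = 0) (h' : D x s' t' = 0)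
    (h1' : D x (nx s') (nx t') = 0) : s = s' ∧ t = t' := by
  obtain ⟨k, i⟩ := s
  obtain ⟨l, j⟩ := t
  obtain ⟨k', i'⟩ := s'
  obtain ⟨l', j'⟩ := t'
  simp only at hst hst' hk
  subst hk
  subst hst
  subst hst'
  obtain ⟨a1, a2, a3⟩ := opp_pos x hx hs k i.1 j.1 i.2 h
  obtain ⟨b1, b2, b3⟩ := opp_pos x hx hs k i'.1 j'.1 i'.2 h'
  unfold D at h1 h1'
  rw [mm_nx, mm_nx] at h1 h1'
  simp only at h1 h1'
  rw [D_formula x hs] at h1 h1'
  push_cast at h1 h1'
  set X := (d : ℝ) - i.1 - d * x k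
  set Y := (j.1 : ℝ) - d * x (k + 2) with hY
  set X' := (d : ℝ) - i'.1 - d * x k
  set Y' := (j'.1 : ℝ) - d * x (k + 2) with hY'
  have c1 : (X - 1) * (Y + 1) = X * Y := by
    rw [a3]
    have : (d : ℝ) - (i.1 + 1) - d * x k = X - 1 := by ring
    rw [this] at h1
    have : (j.1 : ℝ) + 1 - d * x (k + 2) = Y + 1 := by ring
    rw [this] at h1
    linarith
  have c1' : (X' - 1) * (Y' + 1) = X' * Y' := by
    rw [b3]
    have : (d : ℝ) - (i'.1 + 1) - d * x k = X' - 1 := by ring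
    rw [this] at h1'
    have : (j'.1 : ℝ) + 1 - d * x (k + 2) = Y' + 1 := by ring
    rw [this] at h1'
    linarith
  have e1 : X = Y + 1 := by nlinarith
  have e1' : X' = Y' + 1 := by nlinarith
  have e2 : (Y - Y') * (Y + Y' + 1) = 0 := by
    have : X * Y = X' * Y' := by rw [a3, b3]
    rw [e1, e1'] at this
    linear_combination this
  have e3 : Y = Y' := by
    rcases mul_eq_zero.1 e2 with h5 | h5
    · linarith
    · exfalso; linarith
  have e4 : (j.1 : ℝ) = j'.1 := by rw [hY, hY'] at e3; linarith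
  have e5 : (i.1 : ℝ) = i'.1 := by
    have : X = X' := by rw [e1, e1', e3]
    have h6 : (d : ℝ) - i.1 - d * x k = d - i'.1 - d * x k := this
    linarith
  constructor
  · exact Prod.ext rfl (Fin.ext (by exact_mod_cast e5))
  · exact Prod.ext rfl (Fin.ext (by exact_mod_cast e4))

open Classical in
/-- the oriented pairs of opposite positions -/
noncomputable def Z (d : ℕ) : Finset (Pos d × Pos d) :=
  Finset.univ.filter (fun z => z.2.1 = z.1.1 + 1 ∧ D x z.1 z.2 = 0)

include hx hs in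
theorem card_Z : (Z x d).card ≤ d + 1 := by
  classical
  set S : Finset (Pos d) := Finset.univ.filter (fun s => isEnd x s) with hS
  have hmem : ∀ z ∈ Z x d, z.2.1 = z.1.1 + 1 ∧ D x z.1 z.2 = 0 ∧ z.1 ≠ z.2 := by
    intro z hz
    unfold Z at hz
    rw [Finset.mem_filter] at hz
    refine ⟨hz.2.1, hz.2.2, fun h => ?_⟩
    have h1 := hz.2.1
    rw [← h] at h1
    exact (f3a z.1.1).1 h1.symm
  have hfst : Set.InjOn Prod.fst (Z x d : Set (Pos d × Pos d)) := by
    intro z hz w hw h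
    obtain ⟨a1, a2, a3⟩ := hmem z hz
    obtain ⟨b1, b2, b3⟩ := hmem w hw
    have h' : z.1 = w.1 := h
    refine Prod.ext h' ?_
    exact opp_unique x hx hs z.1 z.2 w.2 a3 (by rw [h']; exact b3) a2 (by rw [h']; exact b2)
  have hsnd : Set.InjOn Prod.snd (Z x d : Set (Pos d × Pos d)) := by
    intro z hz w hw h
    obtain ⟨a1, a2, a3⟩ := hmem z hz
    obtain ⟨b1, b2, b3⟩ := hmem w hw
    have h' : z.2 = w.2 := h
    refine Prod.ext ?_ h'
    refine opp_unique x hx hs z.2 z.1 w.1 a3.symm (by rw [h']; exact b3.symm)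
      (by rw [D_antisymm, a2, neg_zero]) (by rw [h', D_antisymm, b2, neg_zero])
  have hcross : ∀ z ∈ Z x d, ∀ w ∈ Z x d, z.1 ≠ w.2 := by
    intro z hz w hw h
    obtain ⟨a1, a2, a3⟩ := hmem z hz
    obtain ⟨b1, b2, b3⟩ := hmem w hw
    have h3 : z.2 = w.1 := opp_unique x hx hs z.1 z.2 w.1 a3 (by rw [h]; exact b3.symm) a2
      (by rw [h, D_antisymm, b2, neg_zero])
    rw [h3, h, b1] at a1
    revert a1
    generalize w.1.1 = k
    revert k; decide
  have hdisj : Disjoint ((Z x d).image Prod.fst) ((Z x d).image Prod.snd) := by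
    rw [Finset.disjoint_left]
    intro s h1 h2
    rw [Finset.mem_image] at h1 h2
    obtain ⟨z, hz, rfl⟩ := h1
    obtain ⟨w, hw, h3⟩ := h2
    exact hcross z hz w hw h3.symm
  have hsub : (Z x d).image Prod.fst ∪ (Z x d).image Prod.snd ⊆ S := by
    intro s hs'
    rw [Finset.mem_union, Finset.mem_image, Finset.mem_image] at hs'
    rw [hS, Finset.mem_filter]
    refine ⟨Finset.mem_univ _, ?_⟩
    rcases hs' with ⟨z, hz, rfl⟩ | ⟨z, hz, rfl⟩
    · obtain ⟨a1, a2, a3⟩ := hmem z hz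
      exact ⟨z.2, a3, a2⟩
    · obtain ⟨a1, a2, a3⟩ := hmem z hz
      exact ⟨z.1, a3.symm, by rw [D_antisymm, a2, neg_zero]⟩
  have hcardS : 2 * (Z x d).card ≤ S.card := by
    have := Finset.card_le_card hsub
    rw [Finset.card_union_of_disjoint hdisj, Finset.card_image_of_injOn hfst,
      Finset.card_image_of_injOn hsnd] at this
    omega
  have hall : S.card + Sᶜ.card = 3 * d := by
    rw [Finset.card_add_card_compl, Fintype.card_prod, Fintype.card_fin, Fintype.card_fin]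
  -- tight pairs
  set T := (Z x d).filter (fun z => D x (nx z.1) (nx z.2) = 0) with hT
  set N := (Z x d).filter (fun z => ¬ D x (nx z.1) (nx z.2) = 0) with hN
  have hTN : T.card + N.card = (Z x d).card := Finset.card_filter_add_card_filter_not _
  have hTc : T.card ≤ 3 := by
    have hinj : Set.InjOn (fun z : Pos d × Pos d => z.1.1) (T : Set (Pos d × Pos d)) := by
      intro z hz w hw h
      rw [Finset.mem_coe, hT, Finset.mem_filter] at hz hw
      obtain ⟨a1, a2, a3⟩ := hmem z hz.1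
      obtain ⟨b1, b2, b3⟩ := hmem w hw.1
      obtain ⟨h1, h2⟩ := tight_unique x hx hs z.1 z.2 w.1 w.2 a1 b1 h a2 hz.2 b2 hw.2
      exact Prod.ext h1 h2
    have := Finset.card_le_card_of_injOn (t := (Finset.univ : Finset (Fin 3))) _
      (fun _ _ => Finset.mem_univ _) hinj
    simpa using this
  have hNc : N.card ≤ Sᶜ.card := by
    apply Finset.card_le_card_of_injOn
      (fun z : Pos d × Pos d => if isEnd x (nx z.1) then nx z.2 else nx z.1)
    · intro z hz
      rw [Finset.mem_coe, hN, Finset.mem_filter] at hz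
      obtain ⟨a1, a2, a3⟩ := hmem z hz.1
      rw [Finset.mem_coe, Finset.mem_compl, hS, Finset.mem_filter, not_and]
      intro _
      simp only
      split_ifs with h1
      · intro h2
        exact hz.2 (tight_of_ends x hx hs z.1 z.2 a3 a2 h1 h2)
      · exact h1
    · intro z hz w hw h
      rw [Finset.mem_coe, hN, Finset.mem_filter] at hz hw
      simp only at h
      split_ifs at h with h1 h2 h2
      · exact hsnd hz.1 hw.1 (nx_inj h)
      · exact absurd (nx_inj h).symm (hcross w hw.1 z hz.1)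
      · exact absurd (nx_inj h) (hcross z hz.1 w hw.1)
      · exact hfst hz.1 hw.1 (nx_inj h)
  omega

end core

end Pool.Agent.Q151.WS
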